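import Pool.Agent.Lib.MP_3eb21e_gt.Ch.Cx

/-!
Acyclic carriers: the cells inside a set `W` of vertices that meet every run of `W`.
-/

noncomputable section

namespace Pool.Agent.Lib.MP_3eb21e_gt.Ch

open Finset

/-- all integers between `u` and `v` lie in `W` -/
def Run (W : Finset ℕ) (u v : ℕ) : Prop := ∀ t, (u ≤ t ∧ t ≤ v) ∨ (v ≤ t ∧ t ≤ u) → t ∈ W

lemma Run.trans {W : Finset ℕ} {u v w : ℕ} (h : Run W u v) (h' : Run W v w) : Run W u w := by
  intro t ht
  by_cases h1 : (u ≤ t ∧ t ≤ v) ∨ (v ≤ t ∧ t ≤ u)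
  · exact h t h1
  · exact h' t (by omega)

lemma Run.symm {W : Finset ℕ} {u v : ℕ} (h : Run W u v) : Run W v u :=
  fun t ht => h t ht.symm

lemma Run.mono {W W' : Finset ℕ} (hW : W ⊆ W') {u v : ℕ} (h : Run W u v) : Run W' u v :=
  fun t ht => hW (h t ht)

lemma Run.refl {W : Finset ℕ} {u : ℕ} (h : u ∈ W) : Run W u u := fun t ht => by
  have : t = u := by omega
  exact this ▸ h

lemma Run.step {W : Finset ℕ} {u : ℕ} (h : u ∈ W) (h' : u + 1 ∈ W) : Run W u (u + 1) :=
  fun t ht => by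
    have : t = u ∨ t = u + 1 := by omega
    rcases this with rfl | rfl <;> assumption

/-- the carrier attached to `W` -/
def K (n : ℕ) (W : Finset ℕ) : Set Cell :=
  {c | c.1 ⊆ W ∧ (∀ e ∈ c.2, e ∈ W ∧ e + 1 ∈ W) ∧ c.1.card + c.2.card ≤ n ∧
    ∀ v ∈ W, ∃ u ∈ pts c, Run W u v}

lemma K_mono {n : ℕ} {W W' : Finset ℕ} (h : W ⊆ W') (h' : ∀ v ∈ W', ∃ u ∈ W, Run W' u v) :
    K n W ⊆ K n W' := by
  rintro c ⟨h1, h2, h3, h4⟩
  refine ⟨h1.trans h, fun e he => ⟨h (h2 e he).1, h (h2 e he).2⟩, h3, fun v hv => ?_⟩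
  obtain ⟨u, hu, hr⟩ := h' v hv
  obtain ⟨w, hw, hr'⟩ := h4 u hu
  exact ⟨w, hw, (hr'.mono h).trans hr⟩

lemma Face.mem_K {n : ℕ} {W : Finset ℕ} {c c' : Cell} (h : Face c c') (hc : c ∈ K n W) :
    c' ∈ K n W := by
  obtain ⟨h1, h2, h3, h4⟩ := hc
  have hcard := h.card
  refine ⟨?_, ?_, ?_, fun v hv => ?_⟩
  · obtain ⟨e, he, -, h5 | h5 | ⟨h5, -⟩⟩ := h <;> rw [h5]
    · exact insert_subset (h2 e he).1 h1
    · exact insert_subset (h2 e he).2 h1
    · exact h1
  · obtain ⟨e, he, h5, -⟩ := h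
    exact fun f hf => h2 f (Multiset.mem_of_mem_erase (h5 ▸ hf))
  · obtain ⟨e, he, -, h5 | h5 | ⟨h5, -⟩⟩ := h <;> rw [h5]
    · have := card_insert_le e c.1; omega
    · have := card_insert_le (e + 1) c.1; omega
    · omega
  · obtain ⟨u, hu, hr⟩ := h4 v hv
    rcases h.fwd hu with h5 | ⟨h5, h6⟩
    · exact ⟨u, h5, hr⟩
    · exact ⟨u + 1, h6, (Run.step (h2 u h5).1 (h2 u h5).2).symm.trans hr⟩

lemma bd_K {n : ℕ} {W : Finset ℕ} (R : ℕ) {x : Chain} (hx : x ∈ Sp (K n W)) :
    bd R x ∈ Sp (K n W) :=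
  Sp_map (bd R) _ (fun c hc => Sp_mono (fun _ h => Face.mem_K h hc) (bd_face R c)) hx

/-- release the vertex `e + 1` into the edge `e` -/
def hh (e : ℕ) : En :=
  lin fun c => if e + 1 ∈ c.1 then e1 (c.1.erase (e + 1), e ::ₘ c.2) else 0

def qq (e : ℕ) (S : Finset ℕ) : Finset ℕ := if e + 1 ∈ S then insert e (S.erase (e + 1)) else S

/-- collapse the edge `e` to its left end -/
def pp (e : ℕ) : En := lin fun c => if e ∈ c.2 then 0 else e1 (qq e c.1, c.2)

lemma hh_e1 (e : ℕ) (c : Cell) :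
    hh e (e1 c) = if e + 1 ∈ c.1 then e1 (c.1.erase (e + 1), e ::ₘ c.2) else 0 := lin_e1 _ _

lemma pp_e1 (e : ℕ) (c : Cell) : pp e (e1 c) = if e ∈ c.2 then 0 else e1 (qq e c.1, c.2) :=
  lin_e1 _ _

lemma hh_T_self (e : ℕ) (c : Cell) :
    T e (hh e (e1 c)) + hh e (T e (e1 c)) = e1 c + pp e (e1 c) := by
  obtain ⟨S, k⟩ := c
  have hne : e ≠ e + 1 := by omega
  by_cases hw : e + 1 ∈ S <;> by_cases he : e ∈ k
  · have hc : (k.count e : F) = ((k.erase e).count e : F) + 1 := by
      have : k.count e = (k.erase e).count e + 1 := by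
        rw [Multiset.count_erase_self]
        have := Multiset.one_le_count_iff_mem.2 he
        omega
      rw [this]; simp
    simp only [hh_e1, T_e1, pp_e1, hw, he, if_true, Multiset.mem_cons_self,
      Multiset.erase_cons_head, map_add, map_smul, mem_insert, or_true, insert_erase hw,
      insert_eq_of_mem hw, Multiset.cons_erase he, erase_insert_of_ne hne, hc, add_smul, one_smul]
    set a := e1 (insert e (S.erase (e + 1)), k)
    set b := ((k.erase e).count e : F) • e1 (S.erase (e + 1), k)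
    set d := e1 (S.erase (e + 1), k)
    have : a + e1 (S, k) + (b + d) + (a + d + b) = e1 (S, k) + ((a + a) + (b + b) + (d + d)) := by
      abel
    rw [this, add_self a, add_self b, add_self d]; simp
  · simp only [hh_e1, T_e1, pp_e1, hw, he, if_true, if_false, Multiset.mem_cons_self,
      Multiset.erase_cons_head, map_zero, insert_erase hw, qq,
      Multiset.count_eq_zero_of_notMem he]
    simp [add_comm]
  · have h1 : e + 1 ∉ insert e S := by simp [hw]
    simp [hh_e1, T_e1, pp_e1, hw, he, erase_insert hw, Multiset.cons_erase he]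
  · simp only [hh_e1, T_e1, pp_e1, hw, he, if_false, map_zero, qq]
    rw [add_self, add_self]

lemma hh_T {e f : ℕ} (h : f ≠ e) (h' : f ≠ e + 1) : T f * hh e = hh e * T f := by
  have aI : ∀ v, v ≠ e + 1 → Commute (I v) (hh e) := fun v hv => ext_e1 fun c => by
    simp only [Module.End.mul_apply, hh_e1, I_e1, mem_insert, hv.symm, false_or]
    split_ifs <;> simp [erase_insert_of_ne hv]
  have aN : Commute (N f) (hh e) := ext_e1 fun c => by
    simp only [Module.End.mul_apply, hh_e1, N_e1, map_smul]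
    split_ifs <;> simp [Multiset.count_cons_of_ne h]
  have aD : Commute (D f) (hh e) := ext_e1 fun c => by
    simp only [Module.End.mul_apply, hh_e1, D_e1]
    by_cases h1 : e + 1 ∈ c.1 <;> by_cases h2 : f ∈ c.2 <;>
      simp [h1, h2, h, hh_e1, D_e1, Multiset.erase_cons_tail _ h.symm]
  exact Commute.mul_left (((aI f h').add_left (aI (f + 1) (by omega))).add_left aN) aD

lemma hh_bd {R e : ℕ} (he : e < R) {c : Cell} (hc : e + 1 ∉ c.2) :
    bd R (hh e (e1 c)) + hh e (bd R (e1 c)) = e1 c + pp e (e1 c) := by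
  rw [bd_apply, bd_apply, map_sum, ← sum_add_distrib, sum_eq_single_of_mem e (mem_range.2 he),
    hh_T_self]
  intro f _ hf
  rcases eq_or_ne f (e + 1) with rfl | hf'
  · rw [hh_e1, T_e1, if_neg hc]
    split_ifs
    · rw [T_e1, if_neg (by simp [hc])]; simp
    · simp
  · have := LinearMap.congr_fun (hh_T hf hf') (e1 c)
    simp only [Module.End.mul_apply] at this
    rw [this, add_self]

lemma eps_hh (e : ℕ) (x : Chain) : eps (hh e x) = 0 := by
  have : eps ∘ₗ hh e = 0 := ext_e1 fun c => by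
    simp only [LinearMap.comp_apply, hh_e1]
    split_ifs <;> simp [eps_e1]
  exact LinearMap.congr_fun this x

lemma eps_pp (e : ℕ) (x : Chain) : eps (pp e x) = eps x := by
  have : eps ∘ₗ pp e = eps := ext_e1 fun c => by
    simp only [LinearMap.comp_apply, pp_e1]
    split_ifs with h
    · have : c.2 ≠ 0 := fun h' => by simp [h'] at h
      simp [eps_e1, this]
    · simp [eps_e1]
  exact LinearMap.congr_fun this x

lemma hh_K {n : ℕ} {W : Finset ℕ} {e : ℕ} (h0 : e ∈ W) (h1 : e + 1 ∈ W) {x : Chain}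
    (hx : x ∈ Sp (K n W)) : hh e x ∈ Sp (K n W) := by
  refine Sp_map (hh e) _ (fun c hc => ?_) hx
  obtain ⟨c1, c2, c3, c4⟩ := hc
  rw [hh_e1]
  split_ifs with hw
  · refine e1_mem ⟨(erase_subset _ _).trans c1, ?_, ?_, fun v hv => ?_⟩
    · intro f hf
      rcases Multiset.mem_cons.1 hf with rfl | hf
      exacts [⟨h0, h1⟩, c2 f hf]
    · have := card_erase_add_one hw
      simp only [Multiset.card_cons]; omega
    · obtain ⟨u, hu, hr⟩ := c4 v hv
      rcases eq_or_ne u (e + 1) with rfl | hne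
      · exact ⟨e, by simp [mem_pts], (Run.step h0 h1).trans hr⟩
      · refine ⟨u, ?_, hr⟩
        rw [mem_pts] at hu ⊢
        rcases hu with hu | hu <;> simp [hu, hne]
  · exact zero_mem _

lemma qq_K {n : ℕ} {W : Finset ℕ} {e : ℕ} (h0 : e ∈ W) (h2 : e + 2 ∉ W) {c : Cell}
    (hc : c ∈ K n W) (he : e ∉ c.2) : (qq e c.1, c.2) ∈ K n (W.erase (e + 1)) := by
  obtain ⟨c1, c2, c3, c4⟩ := hc
  have he1 : e + 1 ∉ c.2 := fun h => h2 (c2 _ h).2
  refine ⟨?_, fun f hf => ?_, ?_, fun v hv => ?_⟩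
  · intro v hv
    simp only [qq] at hv
    split_ifs at hv with hw
    · rcases mem_insert.1 hv with rfl | hv
      · exact mem_erase.2 ⟨by omega, h0⟩
      · exact mem_erase.2 ⟨(mem_erase.1 hv).1, c1 (mem_erase.1 hv).2⟩
    · exact mem_erase.2 ⟨fun h => hw (h ▸ hv), c1 hv⟩
  · refine ⟨mem_erase.2 ⟨fun h => he1 (h ▸ hf), (c2 f hf).1⟩, mem_erase.2 ⟨fun h => ?_, (c2 f hf).2⟩⟩
    have : f = e := by omega
    exact he (this ▸ hf)
  · simp only [qq]
    split_ifs with hw
    · have := card_erase_add_one hw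
      have := card_insert_le e (c.1.erase (e + 1))
      omega
    · exact c3
  · obtain ⟨hv1, hv⟩ := mem_erase.1 hv
    obtain ⟨u, hu, hr⟩ := c4 v hv
    rcases eq_or_ne u (e + 1) with rfl | hne
    · have hw : e + 1 ∈ c.1 := (mem_pts.1 hu).resolve_right he1
      have hve : v ≤ e := by
        by_contra h
        exact h2 (hr (e + 2) (by omega))
      refine ⟨e, by simp [mem_pts, qq, hw], fun t ht => mem_erase.2 ⟨by omega, hr t (by omega)⟩⟩
    · refine ⟨u, ?_, fun t ht => mem_erase.2 ⟨fun h => h2 (hr (e + 2) (by omega)), hr t ht⟩⟩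
      rw [mem_pts] at hu ⊢
      rcases hu with hu | hu
      · left
        simp only [qq]
        split_ifs <;> simp [hu, hne]
      · exact Or.inr hu

theorem contr (n R : ℕ) (N : ℕ) : ∀ (W : Finset ℕ), W.card = N → (∀ v ∈ W, v ≤ R) →
    ∀ A : Finset ℕ, ((A, 0) : Cell) ∈ K n W →
    ∃ (h : En) (a : Chain), a ∈ Sp (K n W) ∧ eps a = 1 ∧ (∀ x, eps (h x) = 0) ∧
      ∀ x ∈ Sp (K n W), h x ∈ Sp (K n W) ∧ bd R (h x) + h (bd R x) = x + eps x • a := by
  induction N using Nat.strong_induction_on with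
  | _ N ih =>
  intro W hN hR A hA
  by_cases hex : ∃ e, e ∈ W ∧ e + 1 ∈ W ∧ e + 2 ∉ W
  · obtain ⟨e, h0, h1, h2⟩ := hex
    have hsub : K n (W.erase (e + 1)) ⊆ K n W := by
      refine K_mono (erase_subset _ _) fun v hv => ?_
      rcases eq_or_ne v (e + 1) with rfl | hne
      · exact ⟨e, mem_erase.2 ⟨by omega, h0⟩, Run.step h0 h1⟩
      · exact ⟨v, mem_erase.2 ⟨hne, hv⟩, Run.refl hv⟩
    obtain ⟨h, a, ha, ha1, hh0, hx'⟩ := ih _ (by rw [← hN]; exact card_erase_lt_of_mem h1)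
      (W.erase (e + 1)) rfl (fun v hv => hR v (mem_of_mem_erase hv)) (qq e A)
      (qq_K h0 h2 hA (by simp))
    have hp : ∀ x ∈ Sp (K n W), pp e x ∈ Sp (K n (W.erase (e + 1))) := fun x hx => by
      refine Sp_map (pp e) _ (fun c hc => ?_) hx
      rw [pp_e1]
      split_ifs with he
      exacts [zero_mem _, e1_mem (qq_K h0 h2 hc he)]
    have hH : ∀ x ∈ Sp (K n W), bd R (hh e x) + hh e (bd R x) = x + pp e x := fun x hx =>
      Sp_eq (bd R * hh e + hh e * bd R) (1 + pp e)
        (fun c hc => hh_bd (hR _ h1) fun h => h2 (hc.2.1 _ h).2) hx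
    refine ⟨hh e + h * pp e, a, Sp_mono hsub ha, ha1, fun x => by simp [eps_hh, hh0],
      fun x hx => ⟨add_mem (hh_K h0 h1 hx) (Sp_mono hsub (hx' _ (hp x hx)).1), ?_⟩⟩
    have hc : pp e (bd R x) = bd R (pp e x) := by
      have a1 := hH _ (bd_K R hx)
      have a2 := congrArg (bd R) (hH x hx)
      rw [bd_bd, map_zero, add_zero] at a1
      rw [map_add, map_add, bd_bd, zero_add, a1] at a2
      exact add_left_cancel a2
    have a3 := (hx' _ (hp x hx)).2
    simp only [LinearMap.add_apply, Module.End.mul_apply, map_add, hc]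
    rw [eps_pp] at a3
    calc _ = (bd R (hh e x) + hh e (bd R x)) + (bd R (h (pp e x)) + h (bd R (pp e x))) := by abel
      _ = x + (pp e x + pp e x) + eps x • a := by rw [hH x hx, a3]; abel
      _ = _ := by rw [add_self, add_zero]
  · have hno : ∀ e, e ∈ W → e + 1 ∉ W := by
      intro e h0 h1
      have : ∀ j, e + j ∈ W ∧ e + j + 1 ∈ W := by
        intro j
        induction j with
        | zero => exact ⟨h0, h1⟩
        | succ j ihj => exact ⟨ihj.2, by_contra fun h => hex ⟨e + j, ihj.1, ihj.2, h⟩⟩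
      have := hR _ (this (R + 1)).1
      omega
    have hK : ∀ c ∈ K n W, c = (W, 0) := by
      rintro ⟨S, k⟩ ⟨c1, c2, -, c4⟩
      have hk : k = 0 := Multiset.eq_zero_of_forall_notMem fun f hf => hno f (c2 f hf).1 (c2 f hf).2
      subst hk
      refine Prod.ext (Subset.antisymm c1 fun v hv => ?_) rfl
      obtain ⟨u, hu, hr⟩ := c4 v hv
      have huv : u = v := by
        by_contra hne
        rcases lt_or_gt_of_ne hne with h | h
        · exact hno u (hr u (by omega)) (hr (u + 1) (by omega))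
        · exact hno v hv (hr (v + 1) (by omega))
      simpa [mem_pts, huv] using hu
    refine ⟨0, e1 (A, 0), e1_mem hA, by simp [eps_e1], by simp, fun x hx => ⟨by simp, ?_⟩⟩
    have : x = eps x • e1 (A, 0) :=
      Sp_eq LinearMap.id (eps.smulRight (e1 (A, 0))) (fun c hc => by
        rw [hK c hc, hK _ hA]; simp [eps_e1]) hx
    rw [← this, add_self]; simp

lemma K_finite (n : ℕ) (W : Finset ℕ) : (K n W).Finite := by
  refine (W.powerset ×ˢ (n • W.val).powerset.toFinset).finite_toSet.subset ?_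
  rintro ⟨S, k⟩ ⟨c1, c2, c3, -⟩
  simp only [coe_product, Set.mem_prod, mem_coe, mem_powerset, Multiset.mem_toFinset,
    Multiset.mem_powerset]
  refine ⟨c1, Multiset.le_iff_count.2 fun e => ?_⟩
  by_cases he : e ∈ k
  · rw [Multiset.count_nsmul, Multiset.count_eq_one_of_mem W.nodup (c2 e he).1]
    have := Multiset.count_le_card e k
    simp only at c3
    omega
  · simp [Multiset.count_eq_zero_of_notMem he]

end Pool.Agent.Lib.MP_3eb21e_gt.Ch
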