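import Mathlib

/-!
The cellular chain complex mod 2 of the space of finite subsets of a path.
A cell is a set of vertices together with a multiset of edges (edge `e` joins `e` and `e + 1`).
-/

noncomputable section

namespace Pool.Agent.Lib.MP_3eb21e_gt.Ch

open Finset

abbrev F := ZMod 2
abbrev Cell := Finset ℕ × Multiset ℕ
abbrev Chain := Cell →₀ F
abbrev En := Module.End F Chain

def e1 (c : Cell) : Chain := Finsupp.single c 1

def lin (φ : Cell → Chain) : En := Finsupp.linearCombination F φ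

@[simp] lemma lin_e1 (φ : Cell → Chain) (c : Cell) : lin φ (e1 c) = φ c := by
  simp [lin, e1]

lemma ext_e1 {M : Type} [AddCommMonoid M] [Module F M] {α β : Chain →ₗ[F] M}
    (h : ∀ c, α (e1 c) = β (e1 c)) : α = β := by
  refine Finsupp.lhom_ext' fun c => LinearMap.ext_ring ?_
  simpa [e1] using h c

lemma add_self {M : Type} [AddCommGroup M] [Module F M] (x : M) : x + x = 0 := by
  rw [← two_smul F x, show (2 : F) = 0 from rfl, zero_smul]

lemma add_selfE (x : En) : x + x = 0 := add_self (M := En) x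

lemma F_sq (a : F) : a * a = a := by revert a; decide

lemma sq_sum {ι : Type} (s : Finset ι) (x : ι → En) (hx : ∀ i j, x i * x j = x j * x i) :
    (∑ i ∈ s, x i) * (∑ i ∈ s, x i) = ∑ i ∈ s, x i * x i := by
  classical
  induction s using Finset.induction_on with
  | empty => simp
  | insert a s ha ih =>
    have hc : (∑ i ∈ s, x i) * x a = x a * ∑ i ∈ s, x i := by
      rw [sum_mul, mul_sum]; exact sum_congr rfl fun i _ => hx i a
    rw [sum_insert ha, sum_insert ha, add_mul, mul_add, mul_add, ih, hc, add_assoc,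
      ← add_assoc (x a * ∑ i ∈ s, x i), add_selfE, zero_add]

/-- span of a set of cells -/
def Sp (K : Set Cell) : Submodule F Chain := Submodule.span F (e1 '' K)

lemma e1_mem {K : Set Cell} {c : Cell} (h : c ∈ K) : e1 c ∈ Sp K :=
  Submodule.subset_span ⟨c, h, rfl⟩

lemma Sp_mono {K K' : Set Cell} (h : K ⊆ K') : Sp K ≤ Sp K' :=
  Submodule.span_mono (Set.image_mono h)

lemma Sp_map {M : Type} [AddCommMonoid M] [Module F M] {K : Set Cell} (α : Chain →ₗ[F] M)
    (P : Submodule F M) (h : ∀ c ∈ K, α (e1 c) ∈ P) {x : Chain} (hx : x ∈ Sp K) : α x ∈ P := by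
  have : Sp K ≤ P.comap α := Submodule.span_le.2 (by rintro _ ⟨c, hc, rfl⟩; exact h c hc)
  exact this hx

lemma Sp_eq {M : Type} [AddCommMonoid M] [Module F M] {K : Set Cell} (α β : Chain →ₗ[F] M)
    (h : ∀ c ∈ K, α (e1 c) = β (e1 c)) {x : Chain} (hx : x ∈ Sp K) : α x = β x :=
  LinearMap.eqOn_span (by rintro _ ⟨c, hc, rfl⟩; exact h c hc) hx

lemma Sp_supp {K : Set Cell} {x : Chain} (hx : x ∈ Sp K) {c : Cell} (hc : x c ≠ 0) : c ∈ K := by
  by_contra h
  refine hc (Sp_eq (Finsupp.lapply c) 0 (fun c' hc' => ?_) hx)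
  have : c' ≠ c := fun e => h (e ▸ hc')
  simp [e1, this]

def I (v : ℕ) : En := lin fun c => e1 (insert v c.1, c.2)
def D (e : ℕ) : En := lin fun c => if e ∈ c.2 then e1 (c.1, c.2.erase e) else 0
def N (e : ℕ) : En := lin fun c => (c.2.count e : F) • e1 c
def T (e : ℕ) : En := (I e + I (e + 1) + N e) * D e
def bd (R : ℕ) : En := ∑ e ∈ range R, T e
def eps : Chain →ₗ[F] F := Finsupp.linearCombination F fun c => if c.2 = 0 then 1 else 0

@[simp] lemma I_e1 (v : ℕ) (c : Cell) : I v (e1 c) = e1 (insert v c.1, c.2) := lin_e1 _ _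
lemma D_e1 (e : ℕ) (c : Cell) :
    D e (e1 c) = if e ∈ c.2 then e1 (c.1, c.2.erase e) else 0 := lin_e1 _ _
@[simp] lemma N_e1 (e : ℕ) (c : Cell) : N e (e1 c) = (c.2.count e : F) • e1 c := lin_e1 _ _
lemma eps_e1 (c : Cell) : eps (e1 c) = if c.2 = 0 then 1 else 0 := by simp [eps, e1]

lemma I_I (v w : ℕ) : I v * I w = I w * I v :=
  ext_e1 fun c => by simp [Finset.insert_comm v w]

lemma I_idem (v : ℕ) : I v * I v = I v := ext_e1 fun c => by simp

lemma I_D (v e : ℕ) : I v * D e = D e * I v :=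
  ext_e1 fun c => by
    simp only [Module.End.mul_apply, D_e1, I_e1]
    split_ifs <;> simp

lemma I_N (v e : ℕ) : I v * N e = N e * I v := ext_e1 fun c => by simp

lemma N_N (e f : ℕ) : N e * N f = N f * N e :=
  ext_e1 fun c => by simp [smul_smul, mul_comm]

lemma N_idem (e : ℕ) : N e * N e = N e := ext_e1 fun c => by simp [smul_smul, F_sq]

lemma D_D (e f : ℕ) : D e * D f = D f * D e := by
  rcases eq_or_ne e f with rfl | h
  · rfl
  refine ext_e1 fun c => ?_
  simp only [Module.End.mul_apply, D_e1]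
  by_cases he : e ∈ c.2 <;> by_cases hf : f ∈ c.2 <;>
    simp [he, hf, D_e1, Multiset.mem_erase_of_ne h, Multiset.mem_erase_of_ne h.symm,
      Multiset.erase_comm c.2 e f]

lemma D_N {e f : ℕ} (h : e ≠ f) : D e * N f = N f * D e :=
  ext_e1 fun c => by
    simp only [Module.End.mul_apply, D_e1, N_e1, map_smul]
    split_ifs <;> simp [Multiset.count_erase_of_ne h.symm]

lemma D_N_self (e : ℕ) : D e * N e = (N e + 1) * D e :=
  ext_e1 fun c => by
    simp only [Module.End.mul_apply, D_e1, N_e1, map_smul]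
    split_ifs with h
    · have : c.2.count e = (c.2.erase e).count e + 1 := by
        rw [Multiset.count_erase_self]
        have := Multiset.one_le_count_iff_mem.2 h
        omega
      rw [this]; simp [add_smul]
    · simp

lemma T_e1 (e : ℕ) (c : Cell) : T e (e1 c) = if e ∈ c.2 then
    e1 (insert e c.1, c.2.erase e) + e1 (insert (e + 1) c.1, c.2.erase e) +
      ((c.2.erase e).count e : F) • e1 (c.1, c.2.erase e) else 0 := by
  simp only [T, Module.End.mul_apply, D_e1]
  split_ifs <;> simp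

lemma I_T (v e : ℕ) : I v * T e = T e * I v := by
  have h1 : Commute (I v) (I e + I (e + 1) + N e) :=
    ((show Commute (I v) (I e) from I_I _ _).add_right (I_I _ _)).add_right (I_N _ _)
  exact h1.mul_right (I_D v e)

lemma T_T (e f : ℕ) : T e * T f = T f * T e := by
  rcases eq_or_ne e f with rfl | h
  · rfl
  have a1 : Commute (T f) (I e + I (e + 1) + N e) := by
    refine ((show Commute (T f) (I e) from (I_T _ _).symm).add_right (I_T _ _).symm).add_right ?_
    refine Commute.mul_left ?_ (D_N h.symm)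
    exact ((show Commute (I f) (N e) from I_N _ _).add_left (I_N _ _)).add_left (N_N _ _)
  have a2 : Commute (T f) (D e) := by
    refine Commute.mul_left ?_ (D_D _ _)
    exact ((show Commute (I f) (D e) from I_D _ _).add_left (I_D _ _)).add_left (D_N h).symm
  exact (a1.mul_right a2).symm

lemma T_sq (e : ℕ) : T e * T e = 0 := by
  set b := I e + I (e + 1) + N e with hb
  have h1 : D e * b = (b + 1) * D e := by
    rw [hb, mul_add, mul_add, D_N_self, ← I_D, ← I_D]; noncomm_ring
  have h2 : b * b = b := by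
    have := sq_sum (univ : Finset (Fin 3)) ![I e, I (e + 1), N e] (by
      intro i j
      fin_cases i <;> fin_cases j <;> simp [I_I e (e + 1), I_N])
    simpa [Fin.sum_univ_three, I_idem, N_idem] using this
  have : T e * T e = b * (D e * b) * D e := by rw [T, ← hb]; noncomm_ring
  rw [this, h1, ← mul_assoc, mul_add, h2, mul_one, add_selfE]; simp

lemma bd_bd (R : ℕ) (x : Chain) : bd R (bd R x) = 0 := by
  have : bd R * bd R = 0 := by rw [bd, sq_sum _ _ T_T]; simp [T_sq]
  rw [← Module.End.mul_apply, this]; rfl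

lemma I_bd (v R : ℕ) : I v * bd R = bd R * I v := by
  rw [bd, sum_mul, mul_sum]; exact sum_congr rfl fun e _ => I_T v e

lemma bd_apply (R : ℕ) (x : Chain) : bd R x = ∑ e ∈ range R, T e x := by
  simp [bd, LinearMap.sum_apply]

lemma eps_I (v : ℕ) (x : Chain) : eps (I v x) = eps x := by
  have : eps ∘ₗ I v = eps := ext_e1 fun c => by simp [eps_e1]
  exact LinearMap.congr_fun this x

lemma eps_bd (R : ℕ) (x : Chain) : eps (bd R x) = 0 := by
  have : ∀ e, eps ∘ₗ T e = 0 := fun e => ext_e1 fun c => by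
    simp only [LinearMap.comp_apply, T_e1, LinearMap.zero_apply]
    split_ifs
    · simp only [map_add, map_smul, eps_e1]
      split_ifs with h
      · simp [h]; rfl
      · simp
    · simp
  rw [bd_apply, map_sum]
  exact sum_eq_zero fun e _ => LinearMap.congr_fun (this e) x

/-- `c'` is a face of `c` -/
def Face (c c' : Cell) : Prop := ∃ e ∈ c.2, c'.2 = c.2.erase e ∧
  (c'.1 = insert e c.1 ∨ c'.1 = insert (e + 1) c.1 ∨ (c'.1 = c.1 ∧ e ∈ c.2.erase e))

lemma bd_face (R : ℕ) (c : Cell) : bd R (e1 c) ∈ Sp {c' | Face c c'} := by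
  rw [bd_apply]
  refine Submodule.sum_mem _ fun e _ => ?_
  rw [T_e1]
  split_ifs with h
  · refine add_mem (add_mem (e1_mem ⟨e, h, rfl, Or.inl rfl⟩)
      (e1_mem ⟨e, h, rfl, Or.inr (Or.inl rfl)⟩)) ?_
    by_cases h' : e ∈ c.2.erase e
    · exact Submodule.smul_mem _ _ (e1_mem ⟨e, h, rfl, Or.inr (Or.inr ⟨rfl, h'⟩)⟩)
    · rw [Multiset.count_eq_zero_of_notMem h']; simp
  · exact zero_mem _

lemma Face.card {c c' : Cell} (h : Face c c') : c'.2.card + 1 = c.2.card := by
  obtain ⟨e, he, h2, -⟩ := h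
  rw [h2, Multiset.card_erase_of_mem he]
  have := Multiset.card_pos_iff_exists_mem.2 ⟨e, he⟩
  simp only [Nat.pred_eq_sub_one]; omega

def pts (c : Cell) : Finset ℕ := c.1 ∪ c.2.toFinset

lemma mem_pts {c : Cell} {u : ℕ} : u ∈ pts c ↔ u ∈ c.1 ∨ u ∈ c.2 := by simp [pts]

lemma card_pts (c : Cell) : (pts c).card ≤ c.1.card + c.2.card :=
  (card_union_le _ _).trans (by have := Multiset.toFinset_card_le c.2; omega)

/-- every point of a cell is a point of the face, or moves one step to the right along an edge -/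
lemma Face.fwd {c c' : Cell} (h : Face c c') {u : ℕ} (hu : u ∈ pts c) :
    u ∈ pts c' ∨ (u ∈ c.2 ∧ u + 1 ∈ pts c') := by
  obtain ⟨e, he, h2, h1⟩ := h
  simp only [mem_pts, h2] at hu ⊢
  rcases eq_or_ne u e with rfl | hne
  · rcases h1 with h1 | h1 | ⟨-, h1⟩
    · simp [h1]
    · simp [h1, he]
    · simp [h1]
  · rw [Multiset.mem_erase_of_ne hne]
    rcases hu with hu | hu
    · rcases h1 with h1 | h1 | ⟨h1, -⟩ <;> simp [h1, hu]
    · simp [hu]

lemma Face.bwd {c c' : Cell} (h : Face c c') {u : ℕ} (hu : u ∈ pts c') :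
    u ∈ pts c ∨ ∃ e ∈ c.2, u = e + 1 := by
  obtain ⟨e, he, h2, h1⟩ := h
  simp only [mem_pts, h2] at hu ⊢
  rcases hu with hu | hu
  · rcases h1 with h1 | h1 | ⟨h1, -⟩
    · rw [h1, mem_insert] at hu
      rcases hu with rfl | hu
      · exact Or.inl (Or.inr he)
      · exact Or.inl (Or.inl hu)
    · rw [h1, mem_insert] at hu
      rcases hu with rfl | hu
      · exact Or.inr ⟨e, he, rfl⟩
      · exact Or.inl (Or.inl hu)
    · exact Or.inl (Or.inl (h1 ▸ hu))
  · exact Or.inl (Or.inr (Multiset.mem_of_mem_erase hu))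

end Pool.Agent.Lib.MP_3eb21e_gt.Ch
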