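import Mathlib

/-!
Chainable spaces.
-/

namespace Pool.Agent.Lib.MP_3eb21e_gt

/-- Every open cover is refined by a finite open chain cover `D 0, ..., D r`:
two links meet exactly when their indices differ by at most one. -/
def Chainable (Y : Type) [TopologicalSpace Y] : Prop :=
  ∀ (ι : Type) (U : ι → Set Y), (∀ i, IsOpen (U i)) → (⋃ i, U i) = Set.univ →
    ∃ (r : ℕ) (D : Fin (r + 1) → Set Y), (∀ i, IsOpen (D i)) ∧ (⋃ i, D i) = Set.univ ∧
      (∀ i, ∃ j, D i ⊆ U j) ∧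
      ∀ i j, (D i ∩ D j).Nonempty ↔ (i : ℕ) ≤ j + 1 ∧ (j : ℕ) ≤ i + 1

end Pool.Agent.Lib.MP_3eb21e_gt
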