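import Pool.Agent.Lib.MP_3eb21e_gt.Ch.Tr

/-!
The discrete coincidence theorem for finite subsets of paths.
-/

noncomputable section

namespace Pool.Agent.Lib.MP_3eb21e_gt.Ch

open Finset

def Ok (n m : ℕ) (B : Finset ℕ) : Prop := B.Nonempty ∧ B.card ≤ n ∧ ∀ j ∈ B, j ≤ m

def Cl (t : ℕ) (A B : Finset ℕ) : Prop :=
  (∀ a ∈ A, ∃ b ∈ B, a ≤ b + t ∧ b ≤ a + t) ∧ ∀ b ∈ B, ∃ a ∈ A, a ≤ b + t ∧ b ≤ a + t

/-- neighbourhood of radius `d` inside the path -/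
def Nb (r d : ℕ) (A : Finset ℕ) : Finset ℕ :=
  (range (r + 1)).filter fun v => ∃ a ∈ A, a ≤ v + d ∧ v ≤ a + d

lemma mem_Nb {r d v : ℕ} {A : Finset ℕ} : v ∈ Nb r d A ↔ v ≤ r ∧ ∃ a ∈ A, a ≤ v + d ∧ v ≤ a + d := by
  simp [Nb]

lemma Nb_run {r d v a : ℕ} {A : Finset ℕ} (ha : a ∈ A) (har : a ≤ r) (hv : v ≤ r)
    (h : a ≤ v + d ∧ v ≤ a + d) : Run (Nb r d A) a v :=
  fun t ht => mem_Nb.2 ⟨by omega, a, ha, by omega⟩

lemma zero_cell {n r : ℕ} (d : ℕ) {A : Finset ℕ} (hA : Ok n r A) :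
    ((A, 0) : Cell) ∈ K n (Nb r d A) := by
  refine ⟨fun a ha => mem_Nb.2 ⟨hA.2.2 a ha, a, ha, by omega⟩, by simp, by simpa using hA.2.1,
    fun v hv => ?_⟩
  obtain ⟨h1, a, ha, h2⟩ := mem_Nb.1 hv
  exact ⟨a, by simp [mem_pts, ha], Nb_run ha (hA.2.2 a ha) h1 h2⟩

lemma K_Nb_mono {n r d : ℕ} {A A' : Finset ℕ} (hA : Ok n r A) (hA' : Ok n r A') (h : Cl 1 A A') :
    K n (Nb r d A') ⊆ K n (Nb r (d + 1) A) := by
  refine K_mono (fun v hv => ?_) fun v hv => ?_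
  · obtain ⟨h1, b, hb, h2⟩ := mem_Nb.1 hv
    obtain ⟨a, ha, h3⟩ := h.2 b hb
    exact mem_Nb.2 ⟨h1, a, ha, by omega⟩
  · obtain ⟨h1, a, ha, h2⟩ := mem_Nb.1 hv
    obtain ⟨b, hb, h3⟩ := h.1 a ha
    refine ⟨b, mem_Nb.2 ⟨hA'.2.2 b hb, b, hb, by omega⟩, ?_⟩
    exact (Nb_run ha (hA.2.2 a ha) (hA'.2.2 b hb) (by omega)).symm.trans
      (Nb_run ha (hA.2.2 a ha) h1 h2)

lemma card_Nb (r d : ℕ) (A : Finset ℕ) : (Nb r d A).card ≤ A.card * (2 * d + 1) := by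
  have : Nb r d A ⊆ A.biUnion fun a => Icc (a - d) (a + d) := fun v hv => by
    obtain ⟨-, a, ha, h⟩ := mem_Nb.1 hv
    exact mem_biUnion.2 ⟨a, ha, mem_Icc.2 (by omega)⟩
  refine (card_le_card this).trans (card_biUnion_le_card_mul _ _ _ fun a _ => ?_)
  rw [Nat.card_Icc]; omega

lemma Run.le {W : Finset ℕ} {u v : ℕ} (h : Run W u v) : u ≤ v + W.card ∧ v ≤ u + W.card := by
  have h1 : Icc u v ⊆ W := fun t ht => h t (Or.inl (mem_Icc.1 ht))
  have h2 : Icc v u ⊆ W := fun t ht => h t (Or.inr (mem_Icc.1 ht))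
  have := card_le_card h1
  have := card_le_card h2
  simp only [Nat.card_Icc] at *
  omega

lemma K_Nb_Cl {n r d : ℕ} (hd : d ≤ n) {A : Finset ℕ} (hA : Ok n r A) {c : Cell}
    (hc : c ∈ K n (Nb r d A)) : Cl (n * (2 * n + 1)) (pts c) A := by
  have hn : 1 ≤ n := hA.1.card_pos.trans_le hA.2.1
  have h1 : n ≤ n * (2 * n + 1) := Nat.le_mul_of_pos_right _ (by omega)
  refine ⟨fun u hu => ?_, fun a ha => ?_⟩
  · have : u ∈ Nb r d A := by
      rcases mem_pts.1 hu with hu | hu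
      exacts [hc.1 hu, (hc.2.1 u hu).1]
    obtain ⟨-, a, ha, h⟩ := mem_Nb.1 this
    exact ⟨a, ha, by omega⟩
  · obtain ⟨u, hu, hr⟩ := hc.2.2.2 a (mem_Nb.2 ⟨hA.2.2 a ha, a, ha, by omega⟩)
    have h2 := hr.le
    have h3 : (Nb r d A).card ≤ n * (2 * n + 1) :=
      (card_Nb r d A).trans (Nat.mul_le_mul hA.2.1 (by omega))
    exact ⟨u, hu, by omega⟩

lemma K_Ok {n m : ℕ} {c : Cell} (hc : c ∈ K n (range (m + 1))) : Ok n m (pts c) := by
  refine ⟨?_, (card_pts c).trans hc.2.2.1, fun j hj => ?_⟩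
  · obtain ⟨u, hu, -⟩ := hc.2.2.2 0 (by simp)
    exact ⟨u, hu⟩
  · have : j ∈ range (m + 1) := by
      rcases mem_pts.1 hj with hj | hj
      exacts [hc.1 hj, (hc.2.1 j hj).1]
    simpa [Nat.lt_succ_iff] using this

lemma Face.cl {c c' : Cell} (h : Face c c') : Cl 1 (pts c) (pts c') := by
  refine ⟨fun u hu => ?_, fun u hu => ?_⟩
  · rcases h.fwd hu with h1 | ⟨-, h1⟩
    exacts [⟨u, h1, by omega⟩, ⟨u + 1, h1, by omega⟩]
  · rcases h.bwd hu with h1 | ⟨e, he, rfl⟩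
    exacts [⟨u, h1, by omega⟩, ⟨e, mem_pts.2 (Or.inr he), by omega⟩]

lemma exists_gam {n m r : ℕ} (G : Finset ℕ → Finset ℕ) (hG : ∀ B, Ok n m B → Ok n r (G B))
    (hL : ∀ B B', Ok n m B → Ok n m B' → Cl 1 B B' → Cl 1 (G B) (G B')) (d : ℕ) :
    ∃ γ : En, ∀ s ∈ K n (range (m + 1)), s.2.card ≤ d →
      γ (e1 s) ∈ Sp (K n (Nb r s.2.card (G (pts s)))) ∧ eps (γ (e1 s)) = eps (e1 s) ∧
        bd r (γ (e1 s)) = γ (bd m (e1 s)) := by
  induction d with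
  | zero =>
    refine ⟨lin fun s => e1 (G (pts s), 0), fun s hs hd => ?_⟩
    have h0 : s.2 = 0 := Multiset.card_eq_zero.1 (by omega)
    rw [lin_e1]
    refine ⟨e1_mem (zero_cell _ (hG _ (K_Ok hs))), by simp [eps_e1, h0], ?_⟩
    simp [bd_apply, T_e1, h0]
  | succ d ih =>
    obtain ⟨γ, hγ⟩ := ih
    have key : ∀ s : Cell, ∃ y : Chain, s ∈ K n (range (m + 1)) → s.2.card = d + 1 →
        y ∈ Sp (K n (Nb r s.2.card (G (pts s)))) ∧ eps y = 0 ∧ bd r y = γ (bd m (e1 s)) := by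
      intro s
      by_cases hs : s ∈ K n (range (m + 1))
      swap
      · exact ⟨0, fun h => absurd h hs⟩
      by_cases hd : s.2.card = d + 1
      swap
      · exact ⟨0, fun _ h => absurd h hd⟩
      obtain ⟨h, a, -, -, h0, h1⟩ := contr n r _ (Nb r s.2.card (G (pts s))) rfl
        (fun v hv => (mem_Nb.1 hv).1) _ (zero_cell _ (hG _ (K_Ok hs)))
      have hf : ∀ s', Face s s' → s'.2.card = d := fun s' h => by have := h.card; omega
      have y1 : γ (bd m (e1 s)) ∈ Sp (K n (Nb r s.2.card (G (pts s)))) := by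
        refine Sp_map γ _ (fun s' hs' => ?_) (bd_face m s)
        have hs'' := Face.mem_K hs' hs
        have := (hγ s' hs'' (hf s' hs').le).1
        rw [hf s' hs'] at this
        rw [hd]
        exact Sp_mono (K_Nb_mono (hG _ (K_Ok hs)) (hG _ (K_Ok hs''))
          (hL _ _ (K_Ok hs) (K_Ok hs'') (Face.cl hs'))) this
      have y2 : eps (γ (bd m (e1 s))) = 0 := by
        rw [← eps_bd m (e1 s)]
        exact Sp_eq (eps ∘ₗ γ) eps
          (fun s' hs' => (hγ s' (Face.mem_K hs' hs) (hf s' hs').le).2.1) (bd_face m s)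
      have y3 : bd r (γ (bd m (e1 s))) = 0 := by
        have := Sp_eq (bd r * γ) (γ * bd m)
          (fun s' hs' => (hγ s' (Face.mem_K hs' hs) (hf s' hs').le).2.2) (bd_face m s)
        simpa [bd_bd] using this
      refine ⟨h (γ (bd m (e1 s))), fun _ _ => ⟨(h1 _ y1).1, h0 _, ?_⟩⟩
      simpa [y2, y3] using (h1 _ y1).2
    choose y hy using key
    refine ⟨lin fun s => if s.2.card ≤ d then γ (e1 s) else y s, fun s hs hd => ?_⟩
    have hb : (lin fun s => if s.2.card ≤ d then γ (e1 s) else y s) (bd m (e1 s)) =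
        γ (bd m (e1 s)) := by
      refine Sp_eq _ _ (fun s' hs' => ?_) (bd_face m s)
      have := Face.card hs'
      rw [lin_e1, if_pos (by omega)]
    rw [hb, lin_e1]
    split_ifs with h
    · exact hγ s hs h
    · obtain ⟨h1, h2, h3⟩ := hy s hs (by omega)
      refine ⟨h1, ?_, h3⟩
      rw [h2, eps_e1, if_neg]
      intro h0
      simp [h0] at h

lemma expand {Kf : Finset Cell} {x : Chain} (hx : x ∈ Sp (Kf : Set Cell)) {M : Type}
    [AddCommMonoid M] [Module F M] (α : Chain →ₗ[F] M) : α x = ∑ c ∈ Kf, x c • α (e1 c) := by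
  have := Sp_eq α (∑ c ∈ Kf, (Finsupp.lapply c : Chain →ₗ[F] F).smulRight (α (e1 c)))
    (fun c hc => by
      rw [LinearMap.sum_apply, sum_eq_single_of_mem c hc]
      · simp [e1]
      · intro b _ hb
        simp [e1, hb]) hx
  simpa [LinearMap.sum_apply] using this

lemma tr_comm (Kf : Finset Cell) (α β : En) (hα : ∀ c ∈ Kf, α (e1 c) ∈ Sp (Kf : Set Cell))
    (hβ : ∀ c ∈ Kf, β (e1 c) ∈ Sp (Kf : Set Cell)) :
    ∑ c ∈ Kf, α (β (e1 c)) c = ∑ c ∈ Kf, β (α (e1 c)) c := by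
  rw [sum_congr rfl fun c hc => congrArg (fun x : Chain => x c) (expand (hβ c hc) α),
    sum_congr rfl fun c hc => congrArg (fun x : Chain => x c) (expand (hα c hc) β)]
  simp only [Finsupp.finsetSum_apply, Finsupp.smul_apply, smul_eq_mul]
  rw [sum_comm]
  simp only [mul_comm]

/-- Lefschetz: a chain map of the whole complex has a diagonal entry. -/
lemma lefschetz {n r : ℕ} (hn : 1 ≤ n) (ψ : En)
    (h1 : ∀ x ∈ Sp (K n (range (r + 1))), ψ x ∈ Sp (K n (range (r + 1))) ∧ eps (ψ x) = eps x ∧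
      bd r (ψ x) = ψ (bd r x)) : ∃ c ∈ K n (range (r + 1)), ψ (e1 c) c ≠ 0 := by
  by_contra hcon
  push Not at hcon
  obtain ⟨h, a, ha, ha1, -, hx⟩ := contr n r _ (range (r + 1)) rfl
    (fun v hv => by simpa [Nat.lt_succ_iff] using hv) {0}
    ⟨by simp, by simp, by simpa using hn, fun v hv => ⟨0, by simp [mem_pts], fun t ht => by
      have := mem_range.1 hv
      exact mem_range.2 (by omega)⟩⟩
  set Kf := (K_finite n (range (r + 1))).toFinset with hKf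
  have hK : (Kf : Set Cell) = K n (range (r + 1)) := by simp [hKf]
  rw [← hK] at h1 hcon ha hx
  have e0 : ∀ c ∈ Kf, e1 c ∈ Sp (Kf : Set Cell) := fun c hc => e1_mem hc
  have hb : ∀ c ∈ Kf, bd r (e1 c) ∈ Sp (Kf : Set Cell) := fun c hc => by
    rw [hK]; exact bd_K r (hK ▸ e0 c hc)
  have t1 := tr_comm Kf (bd r) (ψ * h) hb fun c hc => (h1 _ (hx _ (e0 c hc)).1).1
  have t2 : ∀ c ∈ Kf, bd r ((ψ * h) (e1 c)) c + (ψ * h) (bd r (e1 c)) c =
      ψ a c • eps (e1 c) := fun c hc => by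
    have := congrArg (fun x : Chain => ψ x c) (hx _ (e0 c hc)).2
    simp only [map_add, map_smul, Finsupp.add_apply, Finsupp.smul_apply, hcon c hc, zero_add,
      smul_eq_mul] at this
    rw [Module.End.mul_apply, Module.End.mul_apply, (h1 _ (hx _ (e0 c hc)).1).2.2, this,
      smul_eq_mul, mul_comm]
  have t3 := sum_congr rfl t2
  rw [sum_add_distrib, t1, add_self, ← expand (h1 a ha).1 eps, (h1 a ha).2.1, ha1] at t3
  exact zero_ne_one t3

theorem disc {n m r : ℕ} (hn : 1 ≤ n) (lam : ℕ → ℕ) (h0 : lam 0 = 0) (hm : r ≤ lam m + 2)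
    (hr : ∀ j < m, lam j < r) (hl : ∀ j < m, lam (j + 1) ≤ lam j + 1 ∧ lam j ≤ lam (j + 1) + 1)
    (G : Finset ℕ → Finset ℕ) (hG : ∀ B, Ok n m B → Ok n r (G B))
    (hL : ∀ B B', Ok n m B → Ok n m B' → Cl 1 B B' → Cl 1 (G B) (G B')) :
    ∃ B, Ok n m B ∧ Cl (n * (2 * n + 1) + 2) (B.image lam) (G B) := by
  obtain ⟨γ, hγ⟩ := exists_gam G hG hL n
  have hT : ∀ c ∈ K n (range (r + 1)), Tr lam m c.1 c.2 ⊆ K n (range (m + 1)) := by
    rintro c hc s ⟨s1, s2, s3, s4, s5⟩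
    refine ⟨fun j hj => mem_range.2 (Nat.lt_succ_of_le (s4 j hj).1), fun j hj => ?_, ?_,
      fun v hv => ?_⟩
    · have := s2 j hj
      simp only [mem_range]; omega
    · have := hc.2.2.1
      rw [← s1, Multiset.card_map] at this
      omega
    · obtain ⟨j, hj, hjm⟩ : ∃ j ∈ pts s, j ≤ m := by
        obtain ⟨u, hu⟩ := (K_Ok hc).1
        rcases mem_pts.1 hu with hu | hu
        · obtain ⟨j, hj, -⟩ := s5 u hu
          exact ⟨j, mem_pts.2 (Or.inl hj), (s4 j hj).1⟩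
        · rw [← s1] at hu
          obtain ⟨j, hj, -⟩ := Multiset.mem_map.1 hu
          exact ⟨j, mem_pts.2 (Or.inr hj), (s2 j hj).le⟩
      have := mem_range.1 hv
      exact ⟨j, hj, fun t ht => mem_range.2 (by omega)⟩
  have hγ' := fun s (hs : s ∈ K n (range (m + 1))) => hγ s hs (by have := hs.2.2.1; omega)
  have hsub : ∀ s ∈ K n (range (m + 1)), K n (Nb r s.2.card (G (pts s))) ⊆ K n (range (r + 1)) := by
    intro s hs
    refine K_mono (filter_subset _ _) fun v hv => ?_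
    obtain ⟨⟨a, ha⟩, -, h⟩ := hG _ (K_Ok hs)
    have := mem_range.1 hv
    have := h a ha
    exact ⟨a, mem_Nb.2 ⟨h a ha, a, ha, by omega⟩, fun t ht => mem_range.2 (by omega)⟩
  have hτ : ∀ x ∈ Sp (K n (range (r + 1))), tau lam m x ∈ Sp (K n (range (m + 1))) :=
    fun x hx => Sp_map _ _ (fun c hc => Sp_mono (hT c hc) (tau_Tr lam m c)) hx
  obtain ⟨c, hc, hne⟩ := lefschetz (r := r) hn (γ * tau lam m) fun x hx => by
    refine ⟨Sp_map γ _ (fun s hs => Sp_mono (hsub s hs) (hγ' s hs).1) (hτ x hx), ?_, ?_⟩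
    · rw [← eps_tau lam m x]
      exact Sp_eq (eps ∘ₗ γ) eps (fun s hs => (hγ' s hs).2.1) (hτ x hx)
    · rw [Module.End.mul_apply, Module.End.mul_apply, ← bd_tau lam m hr]
      exact Sp_eq (bd r * γ) (γ * bd m) (fun s hs => (hγ' s hs).2.2) (hτ x hx)
  obtain ⟨s, hs, hsc⟩ : ∃ s ∈ Tr lam m c.1 c.2, γ (e1 s) c ≠ 0 := by
    by_contra hcon
    push Not at hcon
    exact hne (Sp_eq (Finsupp.lapply c ∘ₗ γ) 0 hcon (tau_Tr lam m c))
  have hsK := hT c hc hs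
  have c1 := K_Nb_Cl (by have := hsK.2.2.1; omega) (hG _ (K_Ok hsK))
    (Sp_supp (hγ' s hsK).1 hsc)
  obtain ⟨s1, s2, s3, s4, s5⟩ := hs
  have hv : ∀ v ∈ c.1, v ≤ r := fun v hv => by simpa [Nat.lt_succ_iff] using hc.1 hv
  refine ⟨pts s, K_Ok hsK, fun a ha => ?_, fun b hb => ?_⟩
  · obtain ⟨j, hj, rfl⟩ := mem_image.1 ha
    rcases mem_pts.1 hj with hj | hj
    · obtain ⟨hjm, v, hvc, h⟩ := s4 j hj
      have := mu_near lam m h0 hm hl (hv v hvc) hjm h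
      obtain ⟨b, hb, h'⟩ := c1.1 v (mem_pts.2 (Or.inl hvc))
      exact ⟨b, hb, by omega⟩
    · obtain ⟨b, hb, h'⟩ := c1.1 (lam j)
        (mem_pts.2 (Or.inr (s1 ▸ Multiset.mem_map_of_mem _ hj)))
      exact ⟨b, hb, by omega⟩
  · obtain ⟨u, hu, h'⟩ := c1.2 b hb
    rcases mem_pts.1 hu with hu | hu
    · obtain ⟨j, hj, h⟩ := s5 u hu
      have := mu_near lam m h0 hm hl (hv u hu) (s4 j hj).1 h
      exact ⟨lam j, mem_image_of_mem _ (mem_pts.2 (Or.inl hj)), by omega⟩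
    · rw [← s1] at hu
      obtain ⟨j, hj, rfl⟩ := Multiset.mem_map.1 hu
      exact ⟨lam j, mem_image_of_mem _ (mem_pts.2 (Or.inr hj)), by omega⟩

end Pool.Agent.Lib.MP_3eb21e_gt.Ch
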