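import Pool.Agent.Lib.MP_3eb21e_gt.Ch.Disc
import Pool.Agent.Lib.MP_3eb21e_gt.Ch.Defs
import Pool.Agent.Lib.MP_3eb21e_gt.Sym

/-!
From the discrete theorem to maps onto chainable continua.
-/

noncomputable section

namespace Pool.Agent.Lib.MP_3eb21e_gt.Ch

open Set Topology Filter Uniformity UniformSpace

/-- closeness of two sets with respect to a relation -/
def HC {Y : Type} (V : Set (Y × Y)) (P Q : Set Y) : Prop :=
  (∀ p ∈ P, ∃ q ∈ Q, (p, q) ∈ V) ∧ ∀ q ∈ Q, ∃ p ∈ P, (p, q) ∈ V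

lemma HC.mono {Y : Type} {V V' : Set (Y × Y)} (h : V ⊆ V') {P Q : Set Y} (hc : HC V P Q) :
    HC V' P Q :=
  ⟨fun p hp => (hc.1 p hp).imp fun _ hq => ⟨hq.1, h hq.2⟩,
    fun q hq => (hc.2 q hq).imp fun _ hp => ⟨hp.1, h hp.2⟩⟩

lemma HC.symm {Y : Type} {V : Set (Y × Y)} (h : ∀ a b, (a, b) ∈ V → (b, a) ∈ V) {P Q : Set Y}
    (hc : HC V P Q) : HC V Q P :=
  ⟨fun q hq => (hc.2 q hq).imp fun _ hp => ⟨hp.1, h _ _ hp.2⟩,
    fun p hp => (hc.1 p hp).imp fun _ hq => ⟨hq.1, h _ _ hq.2⟩⟩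

lemma HC.trans {Y : Type} {V V' U : Set (Y × Y)}
    (h : ∀ a b c, (a, b) ∈ V → (b, c) ∈ V' → (a, c) ∈ U) {P Q R : Set Y}
    (h1 : HC V P Q) (h2 : HC V' Q R) : HC U P R := by
  refine ⟨fun p hp => ?_, fun r hr => ?_⟩
  · obtain ⟨q, hq, a⟩ := h1.1 p hp
    obtain ⟨r, hr, b⟩ := h2.1 q hq
    exact ⟨r, hr, h _ _ _ a b⟩
  · obtain ⟨q, hq, b⟩ := h2.2 r hr
    obtain ⟨p, hp, a⟩ := h1.2 q hq
    exact ⟨p, hp, h _ _ _ a b⟩

lemma half {Y : Type} [UniformSpace Y] {U : Set (Y × Y)} (hU : U ∈ 𝓤 Y) :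
    ∃ V ∈ 𝓤 Y, IsOpen V ∧ V ⊆ U ∧ (∀ a b, (a, b) ∈ V → (b, a) ∈ V) ∧
      ∀ a b c, (a, b) ∈ V → (b, c) ∈ V → (a, c) ∈ U := by
  obtain ⟨V, h1, h2, h3, h4⟩ := comp_open_symm_mem_uniformity_sets hU
  have h5 : ∀ a b c, (a, b) ∈ V → (b, c) ∈ V → (a, c) ∈ U := fun a b c x y => h4 ⟨b, x, y⟩
  exact ⟨V, h1, h2, fun p hp => h5 _ _ _ hp (refl_mem_uniformity h1), fun a b h => h3.symm _ _ h, h5⟩

lemma enum {E : Type} {n : ℕ} (A : SymProd E n) : ∃ x : Fin n → E, range x = A.pts := by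
  have hf := A.finite.fintype
  have hc : Fintype.card A.pts ≤ Fintype.card (Fin n) := by
    rw [Fintype.card_fin, ← Nat.card_eq_fintype_card]; exact A.card_le
  obtain ⟨j⟩ := Function.Embedding.nonempty_of_card_le hc
  have := A.nonempty.to_subtype
  refine ⟨fun i => (Function.invFun j i : A.pts), ?_⟩
  rw [show (fun i => ((Function.invFun j i : A.pts) : E)) = Subtype.val ∘ Function.invFun j from rfl,
    range_comp, (Function.invFun_surjective j.injective).range_eq]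
  simp

def ofFun {E : Type} {n : ℕ} (hn : 1 ≤ n) (x : Fin n → E) : SymProd E n :=
  ⟨range x, ⟨x ⟨0, hn⟩, mem_range_self _⟩, finite_range x, by
    rw [← image_univ]
    exact (ncard_image_le finite_univ).trans (by simp [ncard_univ])⟩

lemma compact_sym {E : Type} [TopologicalSpace E] [CompactSpace E] {n : ℕ} (hn : 1 ≤ n) :
    CompactSpace (SymProd E n) := by
  have hc : Continuous (ofFun (E := E) hn) := by
    rw [continuous_generateFrom_iff]
    rintro _ ⟨u, hu, rfl⟩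
    have e : ofFun hn ⁻¹' nbhd u =
        (⋂ j, (fun x => x j) ⁻¹' (⋃ i, u i)) ∩ ⋂ i, ⋃ j, (fun x => x j) ⁻¹' u i := by
      ext x
      simp only [nbhd, ofFun, mem_preimage, mem_ofPred_eq, range_subset_iff, mem_inter_iff,
        mem_iInter]
      refine and_congr_right fun _ => forall_congr' fun i => ⟨?_, ?_⟩
      · rintro ⟨_, ⟨j, rfl⟩, hz⟩
        exact mem_iUnion.2 ⟨j, hz⟩
      · intro h
        obtain ⟨j, hj⟩ := mem_iUnion.1 h
        exact ⟨_, mem_range_self j, hj⟩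
    rw [e]
    exact (isOpen_iInter_of_finite fun j => (isOpen_iUnion hu).preimage (continuous_apply j)).inter
      (isOpen_iInter_of_finite fun i => isOpen_iUnion fun j => (hu i).preimage (continuous_apply j))
  refine Function.Surjective.compactSpace (f := ofFun hn) hc (fun A => ?_)
  obtain ⟨x, hx⟩ := enum A
  refine ⟨x, ?_⟩
  cases A
  simp only [ofFun, SymProd.mk.injEq]
  exact hx

lemma HC_nhds {E : Type} [UniformSpace E] {n : ℕ} (A : SymProd E n) {V : Set (E × E)}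
    (hV : V ∈ 𝓤 E) : {A' : SymProd E n | HC V A.pts A'.pts} ∈ 𝓝 A := by
  obtain ⟨W, hW, ho, hs, -⟩ := half hV
  obtain ⟨x, hx⟩ := enum A
  refine mem_of_superset ((isOpen_nbhd (u := fun i => ball (x i) W)
    fun i => isOpen_ball _ ho).mem_nhds ⟨?_, fun i => ?_⟩) ?_
  · rw [← hx]
    rintro _ ⟨i, rfl⟩
    exact mem_iUnion.2 ⟨i, mem_ball_self _ hW⟩
  · exact ⟨x i, hx ▸ mem_range_self i, mem_ball_self _ hW⟩
  · rintro A' ⟨h1, h2⟩
    refine ⟨fun p hp => ?_, fun q hq => ?_⟩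
    · rw [← hx] at hp
      obtain ⟨i, rfl⟩ := hp
      obtain ⟨q, hq, h⟩ := h2 i
      exact ⟨q, hq, hs h⟩
    · obtain ⟨i, hi⟩ := mem_iUnion.1 (h1 hq)
      exact ⟨x i, hx ▸ mem_range_self i, hs hi⟩

lemma nhds_HC {E : Type} [UniformSpace E] {n : ℕ} (A : SymProd E n) {O : Set (SymProd E n)}
    (hO : O ∈ 𝓝 A) : ∃ V ∈ 𝓤 E, ∀ A' : SymProd E n, HC V A.pts A'.pts → A' ∈ O := by
  obtain ⟨O', h1, h2, h3⟩ := mem_nhds_iff.1 hO
  suffices h : ∃ V ∈ 𝓤 E, ∀ A' : SymProd E n, HC V A.pts A'.pts → A' ∈ O' from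
    h.imp fun V hV => ⟨hV.1, fun A' h => h1 (hV.2 A' h)⟩
  clear h1 hO
  induction h2 with
  | basic s hs =>
    obtain ⟨u, hu, rfl⟩ := hs
    have key : ∀ᶠ p : E × E in 𝓤 E, ∀ a ∈ A.pts, ∀ i, a ∈ u i → p.1 = a → p.2 ∈ u i := by
      rw [eventually_all_finite A.finite]
      intro a _
      rw [eventually_all]
      intro i
      by_cases h : a ∈ u i
      · filter_upwards [mem_nhds_uniformity_iff_right.1 ((hu i).mem_nhds h)] with p hp _ using hp
      · exact Eventually.of_forall fun _ h' => absurd h' h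
    refine ⟨_, key, fun A' hA => ⟨fun q hq => ?_, fun i => ?_⟩⟩
    · obtain ⟨p, hp, h⟩ := hA.2 q hq
      obtain ⟨i, hi⟩ := mem_iUnion.1 (h3.1 hp)
      exact mem_iUnion.2 ⟨i, h p hp i hi rfl⟩
    · obtain ⟨p, hp, hi⟩ := h3.2 i
      obtain ⟨q, hq, h⟩ := hA.1 p hp
      exact ⟨q, hq, h p hp i hi rfl⟩
  | univ => exact ⟨univ, univ_mem, fun _ _ => trivial⟩
  | inter s t _ _ ihs iht =>
    obtain ⟨V, hV, h⟩ := ihs h3.1
    obtain ⟨V', hV', h'⟩ := iht h3.2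
    exact ⟨V ∩ V', inter_mem hV hV', fun A' hA =>
      ⟨h A' (hA.mono inter_subset_left), h' A' (hA.mono inter_subset_right)⟩⟩
  | sUnion S _ ih =>
    obtain ⟨s, hs, hA⟩ := h3
    obtain ⟨V, hV, h⟩ := ih s hs hA
    exact ⟨V, hV, fun A' h' => ⟨s, hs, h A' h'⟩⟩

lemma compact_unif {Z T : Type} [TopologicalSpace Z] [CompactSpace Z] (l : Filter T)
    (P : Z → Set T → Prop) (hm : ∀ z U U', U' ⊆ U → P z U → P z U')
    (h : ∀ z, ∃ U ∈ l, ∀ᶠ z' in 𝓝 z, P z' U) : ∃ U ∈ l, ∀ z, P z U := by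
  have : ∃ U ∈ l, ∀ z ∈ (univ : Set Z), P z U := by
    refine isCompact_univ.induction_on (p := fun s => ∃ U ∈ l, ∀ z ∈ s, P z U)
      ⟨univ, univ_mem, by simp⟩ ?_ ?_ ?_
    · rintro s t hst ⟨U, hU, h⟩
      exact ⟨U, hU, fun z hz => h z (hst hz)⟩
    · rintro s t ⟨U, hU, h⟩ ⟨U', hU', h'⟩
      refine ⟨U ∩ U', inter_mem hU hU', ?_⟩
      rintro z (hz | hz)
      exacts [hm _ _ _ inter_subset_left (h z hz), hm _ _ _ inter_subset_right (h' z hz)]
    · intro z _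
      obtain ⟨U, hU, h⟩ := h z
      exact ⟨_, mem_nhdsWithin_of_mem_nhds h, U, hU, fun _ h => h⟩
  simpa using this

lemma sep_HC {Y : Type} [UniformSpace Y] [T0Space Y] {P Q : Set Y} (hP : P.Finite) (hQ : Q.Finite)
    (h : ∀ U ∈ 𝓤 Y, HC U P Q) : P = Q := by
  have key : ∀ᶠ z : Y × Y in 𝓤 Y, ∀ p ∈ P, ∀ q ∈ Q, p ≠ q → z ≠ (p, q) := by
    rw [eventually_all_finite hP]
    intro p _
    rw [eventually_all_finite hQ]
    intro q _
    by_cases hpq : p = q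
    · exact Eventually.of_forall fun _ h => absurd hpq h
    · obtain ⟨r, hr, h⟩ := t0Space_iff_uniformity'.1 inferInstance hpq
      filter_upwards [hr] with z hz _ e using h (e ▸ hz)
  have := h _ key
  refine Subset.antisymm (fun p hp => ?_) fun q hq => ?_
  · obtain ⟨q, hq, h⟩ := this.1 p hp
    by_contra hc
    exact h p hp q hq (fun e => hc (e ▸ hq)) rfl
  · obtain ⟨p, hp, h⟩ := this.2 q hq
    by_contra hc
    exact h p hp q hq (fun e => hc (e ▸ hp)) rfl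

lemma chain_close {Y : Type} [UniformSpace Y] (N : ℕ) : ∀ U ∈ 𝓤 Y, ∃ V ∈ 𝓤 Y,
    ∀ (D : ℕ → Set Y) (r : ℕ), (∀ i ≤ r, ∀ a ∈ D i, ∀ b ∈ D i, (a, b) ∈ V) →
      (∀ i < r, (D i ∩ D (i + 1)).Nonempty) →
      ∀ i j, i ≤ j → j ≤ r → j ≤ i + N → ∀ a ∈ D i, ∀ b ∈ D j, (a, b) ∈ U := by
  induction N with
  | zero =>
    refine fun U hU => ⟨U, hU, fun D r h _ i j h1 h2 h3 => ?_⟩
    obtain rfl : i = j := by omega
    exact h i h2
  | succ N ih =>
    intro U hU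
    obtain ⟨U', hU', -, hs, -, ht⟩ := half hU
    obtain ⟨V, hV, h⟩ := ih U' hU'
    refine ⟨V ∩ U', inter_mem hV hU', fun D r h1 h2 i j h3 h4 h5 a ha b hb => ?_⟩
    have h' := h D r (fun i hi a ha b hb => (h1 i hi a ha b hb).1) h2
    by_cases hj : j ≤ i + N
    · exact hs (h' i j h3 h4 hj a ha b hb)
    · obtain rfl : j = i + N + 1 := by omega
      obtain ⟨z, hz, hz'⟩ := h2 (i + N) (by omega)
      exact ht _ _ _ (h' i (i + N) (by omega) (by omega) le_rfl a ha z hz) (h1 _ h4 z hz' b hb).2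

lemma path_of_conn {X : Type} [UniformSpace X] [PreconnectedSpace X] {E : Set (X × X)}
    (hE : E ∈ 𝓤 X) (a b : X) :
    ∃ (m : ℕ) (x : ℕ → X), x 0 = a ∧ x m = b ∧ ∀ j < m, (x j, x (j + 1)) ∈ E := by
  have : Relation.ReflTransGen (fun p q => (p, q) ∈ E) a b := by
    refine PreconnectedSpace.induction₂' _ (fun z => ?_) inferInstance a b
    filter_upwards [mem_nhds_left z hE, mem_nhds_right z hE] with y h1 h2
    exact ⟨.single h1, .single h2⟩
  induction this with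
  | refl => exact ⟨0, fun _ => a, rfl, rfl, by simp⟩
  | @tail p q _ h ih =>
    obtain ⟨m, x, h0, hm, hx⟩ := ih
    refine ⟨m + 1, fun j => if j ≤ m then x j else q, by simp [h0], by simp, fun j hj => ?_⟩
    by_cases h' : j < m
    · simpa [h'.le, Nat.succ_le_of_lt h'] using hx j h'
    · obtain rfl : j = m := by omega
      simpa [hm] using h

theorem universal {X Y : Type} [UniformSpace X] [CompactSpace X] [PreconnectedSpace X]
    [UniformSpace Y] [CompactSpace Y] [T0Space Y] (hY : Chainable Y) (f : X → Y)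
    (hf : Continuous f) (hs : Function.Surjective f) {n : ℕ} (hn : 1 ≤ n)
    (g : SymProd X n → SymProd Y n) (hg : Continuous g) : ∃ A, (g A).pts = f '' A.pts := by
  classical
  by_contra hcon
  push Not at hcon
  have := compact_sym (E := X) hn
  have hfu := CompactSpace.uniformContinuous_of_continuous hf
  -- no approximate coincidence
  obtain ⟨U, hU, hno⟩ := compact_unif (𝓤 Y)
    (fun (A : SymProd X n) U => ¬ HC U (f '' A.pts) (g A).pts)
    (fun A U U' h h1 h2 => h1 (h2.mono h)) fun A => by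
      have h1 : ¬ ∀ U ∈ 𝓤 Y, HC U (f '' A.pts) (g A).pts :=
        fun h => hcon A (sep_HC (A.finite.image f) (g A).finite h).symm
      push Not at h1
      obtain ⟨U0, hU0, h0⟩ := h1
      obtain ⟨U1, hU1, -, -, -, t1⟩ := half hU0
      obtain ⟨V, hV, -, s2, y2, t2⟩ := half hU1
      refine ⟨V, hV, ?_⟩
      filter_upwards [HC_nhds A (hfu hV), hg.continuousAt (HC_nhds (g A) hV)] with A' a1 a2 a3
      have a4 : HC V (f '' A.pts) (f '' A'.pts) := by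
        refine ⟨?_, ?_⟩
        · rintro _ ⟨p, hp, rfl⟩
          obtain ⟨q, hq, h⟩ := a1.1 p hp
          exact ⟨_, mem_image_of_mem f hq, h⟩
        · rintro _ ⟨q, hq, rfl⟩
          obtain ⟨p, hp, h⟩ := a1.2 q hq
          exact ⟨_, mem_image_of_mem f hp, h⟩
      exact h0 ((a4.trans t2 a3).trans t1 ((HC.symm y2 a2).mono s2))
  obtain ⟨U', hU', -, sU, yU, -⟩ := half hU
  obtain ⟨V, hV, hcl⟩ := chain_close (n * (2 * n + 1) + 2) U' hU'
  obtain ⟨V', hV', oV, -, yV, tV⟩ := half hV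
  obtain ⟨r, D0, d1, d2, d3, d4⟩ := hY Y (fun y => ball y V') (fun y => isOpen_ball _ oV)
    (eq_univ_of_forall fun y => mem_iUnion.2 ⟨y, mem_ball_self _ hV'⟩)
  let D : ℕ → Set Y := fun i => if h : i < r + 1 then D0 ⟨i, h⟩ else ∅
  have hD : ∀ i (h : i < r + 1), D i = D0 ⟨i, h⟩ := fun i h => dif_pos h
  have e4 : ∀ i ≤ r, ∀ j ≤ r, (D i ∩ D j).Nonempty ↔ i ≤ j + 1 ∧ j ≤ i + 1 := fun i hi j hj => by
    rw [hD i (by omega), hD j (by omega), d4]
  have e2 : ∀ y, ∃ i, i ≤ r ∧ y ∈ D i := fun y => by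
    obtain ⟨i, hi⟩ := mem_iUnion.1 (d2 ▸ mem_univ y)
    exact ⟨i, by omega, by rw [hD i i.2]; exact hi⟩
  let l : Y → ℕ := fun y => Nat.find (e2 y)
  have l1 : ∀ y, l y ≤ r ∧ y ∈ D (l y) := fun y => Nat.find_spec (e2 y)
  have l2 : ∀ y, ∀ k ≤ r, y ∈ D k → l y ≤ k ∧ k ≤ l y + 1 := fun y k hk hy =>
    ⟨Nat.find_min' _ ⟨hk, hy⟩, ((e4 k hk _ (l1 y).1).1 ⟨y, hy, (l1 y).2⟩).1⟩
  have hcl' := hcl D r (fun i hi a ha b hb => by
    obtain ⟨y, hy⟩ := d3 ⟨i, by omega⟩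
    rw [hD i (by omega)] at ha hb
    exact tV _ _ _ (yV _ _ (hy ha)) (hy hb)) fun i hi => (e4 i hi.le _ hi).2 (by omega)
  have l3 : ∀ p q, l p ≤ l q + (n * (2 * n + 1) + 2) ∧ l q ≤ l p + (n * (2 * n + 1) + 2) →
      (p, q) ∈ U := fun p q h => by
    rcases le_total (l p) (l q) with h' | h'
    · exact sU (hcl' _ _ h' (l1 q).1 h.2 p (l1 p).2 q (l1 q).2)
    · exact sU (yU _ _ (hcl' _ _ h' (l1 p).1 h.1 q (l1 q).2 p (l1 p).2))
  obtain ⟨L, hL, hleb⟩ := lebesgue_number_lemma isCompact_univ d1 d2.ge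
  have l4 : ∀ p q, (p, q) ∈ L → l p ≤ l q + 1 ∧ l q ≤ l p + 1 := fun p q h => by
    obtain ⟨i, hi⟩ := hleb p trivial
    rw [← hD i i.2] at hi
    have a1 := l2 p i (by omega) (hi (mem_ball_self _ hL))
    have a2 := l2 q i (by omega) (hi h)
    omega
  -- uniform continuity of `g`
  obtain ⟨E, hE, hgE⟩ := compact_unif (𝓤 X)
    (fun (A : SymProd X n) E => ∀ A' : SymProd X n, HC E A.pts A'.pts → HC L (g A).pts (g A').pts)
    (fun A E E' h h1 A' h2 => h1 A' (h2.mono h)) fun A => by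
      obtain ⟨L', hL', -, -, y1, t1⟩ := half hL
      obtain ⟨E0, hE0, h0⟩ := nhds_HC A (hg.continuousAt (HC_nhds (g A) hL'))
      obtain ⟨E1, hE1, -, s2, -, t2⟩ := half hE0
      refine ⟨E1, hE1, ?_⟩
      filter_upwards [HC_nhds A hE1] with A' a1 A'' a2
      exact (HC.symm y1 (h0 A' (HC.mono s2 a1))).trans t1 (h0 A'' (HC.trans t2 a1 a2))
  obtain ⟨E', hE', -, sE, yE, -⟩ := half (inter_mem hE (hfu hL))
  obtain ⟨y0, hy0, -⟩ := (e4 0 r.zero_le 0 r.zero_le).2 (by omega)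
  obtain ⟨y1, hy1, -⟩ := (e4 r le_rfl r le_rfl).2 (by omega)
  obtain ⟨a, rfl⟩ := hs y0
  obtain ⟨b, rfl⟩ := hs y1
  obtain ⟨m, x, x0, xm, hx⟩ := path_of_conn hE' a b
  let mk : Finset ℕ → SymProd X n := fun B =>
    if h : B.Nonempty ∧ B.card ≤ n then
      ⟨x '' B, (Finset.coe_nonempty.2 h.1).image x, B.finite_toSet.image x,
        (ncard_image_le B.finite_toSet).trans (by simpa using h.2)⟩
    else ofFun hn fun _ => a
  have hmk : ∀ B, Ok n m B → (mk B).pts = x '' B := fun B h => by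
    simp only [mk, dif_pos (And.intro h.1 h.2.1)]
  have hxx : ∀ i ≤ m, ∀ j ≤ m, i ≤ j + 1 ∧ j ≤ i + 1 → (x i, x j) ∈ E := fun i hi j hj h => by
    rcases lt_trichotomy i j with h' | rfl | h'
    · obtain rfl : j = i + 1 := by omega
      exact (sE (hx i hj)).1
    · exact refl_mem_uniformity hE
    · obtain rfl : i = j + 1 := by omega
      exact (sE (yE _ _ (hx j hi))).1
  obtain ⟨B, hB, hc⟩ := disc (n := n) (m := m) (r := r + 1) hn (fun j => l (f (x j)))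
    (by have := l2 _ 0 r.zero_le hy0; simp only [x0]; omega)
    (by have := l2 _ r le_rfl hy1; simp only [xm]; omega)
    (fun j _ => Nat.lt_succ_of_le (l1 _).1)
    (fun j hj => (l4 _ _ (sE (hx j hj)).2).symm)
    (fun B => (g (mk B)).finite.toFinset.image l)
    (fun B _ => ⟨by simpa using (g (mk B)).nonempty,
      Finset.card_image_le.trans ((ncard_eq_toFinset_card _ (g (mk B)).finite).symm.trans_le (g (mk B)).card_le),
      fun j hj => by
        obtain ⟨y, -, rfl⟩ := Finset.mem_image.1 hj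
        exact (l1 y).1.trans r.le_succ⟩)
    (fun B B' h h' hc => by
      have a1 : HC E (mk B).pts (mk B').pts := by
        rw [hmk B h, hmk B' h']
        refine ⟨?_, ?_⟩
        · rintro _ ⟨i, hi, rfl⟩
          obtain ⟨j, hj, h1⟩ := hc.1 i hi
          exact ⟨_, mem_image_of_mem x hj, hxx i (h.2.2 i hi) j (h'.2.2 j hj) h1⟩
        · rintro _ ⟨j, hj, rfl⟩
          obtain ⟨i, hi, h1⟩ := hc.2 j hj
          exact ⟨_, mem_image_of_mem x hi, hxx i (h.2.2 i hi) j (h'.2.2 j hj) h1⟩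
      have a2 := hgE _ _ a1
      refine ⟨fun i hi => ?_, fun j hj => ?_⟩
      · obtain ⟨p, hp, rfl⟩ := Finset.mem_image.1 hi
        obtain ⟨q, hq, h1⟩ := a2.1 p (by simpa using hp)
        exact ⟨l q, Finset.mem_image_of_mem l (by simpa using hq), l4 p q h1⟩
      · obtain ⟨q, hq, rfl⟩ := Finset.mem_image.1 hj
        obtain ⟨p, hp, h1⟩ := a2.2 q (by simpa using hq)
        exact ⟨l p, Finset.mem_image_of_mem l (by simpa using hp), l4 p q h1⟩)
  refine hno (mk B) ?_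
  rw [hmk B hB]
  refine ⟨?_, fun q hq => ?_⟩
  · rintro _ ⟨_, ⟨j, hj, rfl⟩, rfl⟩
    obtain ⟨_, h1, h2⟩ := hc.1 _ (Finset.mem_image_of_mem _ hj)
    obtain ⟨q, hq, rfl⟩ := Finset.mem_image.1 h1
    exact ⟨q, by simpa using hq, l3 _ _ h2⟩
  · obtain ⟨_, h1, h2⟩ := hc.2 _ (Finset.mem_image_of_mem l (by simpa using hq))
    obtain ⟨j, hj, rfl⟩ := Finset.mem_image.1 h1
    exact ⟨_, mem_image_of_mem f (mem_image_of_mem x hj), l3 _ _ h2⟩

end Pool.Agent.Lib.MP_3eb21e_gt.Ch
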