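import Pool.Agent.Lib.MP_3eb21e_gt.Ch.Car

/-!
The mod 2 transfer along a labelling `lam` of the edges of a long path by the edges of a short path.
-/

noncomputable section

namespace Pool.Agent.Lib.MP_3eb21e_gt.Ch

open Finset

variable (lam : ℕ → ℕ) (m : ℕ)

def mu (v j : ℕ) : F :=
  (if j = 0 ∨ lam (j - 1) < v then 1 else 0) + (if j < m ∧ lam j < v then 1 else 0)

def M (v : ℕ) : En := ∑ j ∈ range (m + 1), mu lam m v j • I j

lemma sum_mu {V : Type} [AddCommGroup V] [Module F V] (φ : ℕ → V) (v : ℕ) :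
    ∑ j ∈ range (m + 1), mu lam m v j • φ j =
      φ 0 + ∑ j ∈ range m, if lam j < v then φ j + φ (j + 1) else 0 := by
  simp only [mu, add_smul, sum_add_distrib]
  rw [sum_range_succ', sum_range_succ (n := m)]
  simp only [Nat.add_eq_zero_iff, one_ne_zero, and_false, false_or, Nat.add_sub_cancel, true_or,
    if_true, one_smul, lt_self_iff_false, false_and, if_false, zero_smul, add_zero]
  rw [add_comm _ (φ 0), add_assoc, ← sum_add_distrib]
  congr 1
  refine sum_congr rfl fun j hj => ?_
  simp only [mem_range.1 hj, true_and]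
  split_ifs <;> simp [add_comm]

lemma M_add (e : ℕ) : M lam m e + M lam m (e + 1) =
    ∑ j ∈ range m with lam j = e, (I j + I (j + 1)) := by
  have h := fun v => sum_mu (V := En) lam m I v
  rw [M, M, (h e).trans rfl, (h (e + 1)).trans rfl, add_add_add_comm, add_selfE, zero_add,
    ← sum_add_distrib, sum_filter]
  refine sum_congr rfl fun j _ => ?_
  rcases lt_trichotomy (lam j) e with h | h | h
  · rw [if_pos h, if_pos (by omega), if_neg h.ne, add_selfE]
  · simp [h]
  · rw [if_neg (by omega), if_neg (by omega), if_neg h.ne', add_zero]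

lemma eps_M (v : ℕ) (x : Chain) : eps (M lam m v x) = eps x := by
  have : M lam m v x = ∑ j ∈ range (m + 1), mu lam m v j • I j x := by
    simp [M, LinearMap.sum_apply]
  rw [this, sum_mu, map_add, eps_I, map_sum, sum_eq_zero, add_zero]
  intro j _
  split_ifs
  · rw [map_add, eps_I, eps_I, add_self]
  · simp

lemma comm_M {α : En} (h : ∀ j, I j * α = α * I j) (v : ℕ) : Commute (M lam m v) α :=
  Commute.sum_left _ _ _ fun j _ => Commute.smul_left (h j) _

lemma M_M (v w : ℕ) : Commute (M lam m v) (M lam m w) :=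
  comm_M lam m (fun j => (comm_M lam m (fun i => I_I i j) w).symm) v

lemma M_idem (v : ℕ) : M lam m v * M lam m v = M lam m v := by
  rw [M, sq_sum]
  · exact sum_congr rfl fun j _ => by rw [smul_mul_smul_comm, F_sq, I_idem]
  · intro i j
    rw [smul_mul_smul_comm, smul_mul_smul_comm, I_I, mul_comm]

def P (S : Finset ℕ) : En := S.noncommProd (M lam m) fun v _ w _ _ => M_M lam m v w

lemma P_insert (v : ℕ) (S : Finset ℕ) : P lam m (insert v S) = M lam m v * P lam m S := by
  by_cases h : v ∈ S
  · have : P lam m S = M lam m v * P lam m (S.erase v) := by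
      conv_lhs => rw [← insert_erase h]
      exact noncommProd_insert_of_notMem _ _ _ _ (notMem_erase v S)
    rw [insert_eq_of_mem h, this, ← mul_assoc, M_idem]
  · exact noncommProd_insert_of_notMem _ _ _ _ h

lemma comm_P {α : En} (h : ∀ v, Commute α (M lam m v)) (S : Finset ℕ) : Commute α (P lam m S) :=
  noncommProd_commute _ _ _ _ fun v _ => h v

lemma eps_P (S : Finset ℕ) (x : Chain) : eps (P lam m S x) = eps x := by
  induction S using Finset.induction_on with
  | empty => simp [P]
  | insert v S _ ih => rw [P_insert, Module.End.mul_apply, eps_M, ih]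

def L (k : Multiset ℕ) : Finset (Multiset ℕ) :=
  (k.card • (range m).val).powerset.toFinset.filter fun l => l.map lam = k

lemma mem_L {k l : Multiset ℕ} : l ∈ L lam m k ↔ (∀ j ∈ l, j < m) ∧ l.map lam = k := by
  simp only [L, mem_filter, Multiset.mem_toFinset, Multiset.mem_powerset]
  refine and_congr_left fun hk => ⟨fun h j hj => ?_, fun h => Multiset.le_iff_count.2 fun j => ?_⟩
  · simpa using Multiset.mem_of_mem_nsmul (Multiset.mem_of_le h hj)
  · by_cases hj : j ∈ l
    · rw [Multiset.count_nsmul,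
        Multiset.count_eq_one_of_mem (range m).nodup (by simpa using h j hj), ← hk]
      simpa using Multiset.count_le_card j l
    · simp [Multiset.count_eq_zero_of_notMem hj]

def Q (k : Multiset ℕ) : Chain := ∑ l ∈ L lam m k, e1 (∅, l)

lemma D_Q {j : ℕ} (hj : j < m) (k : Multiset ℕ) :
    D j (Q lam m k) = if lam j ∈ k then Q lam m (k.erase (lam j)) else 0 := by
  simp only [Q, map_sum, D_e1]
  rw [← sum_filter]
  split_ifs with h
  · refine sum_nbij' (fun l => l.erase j) (fun l => j ::ₘ l) ?_ ?_ ?_ ?_ (fun _ _ => rfl)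
    · intro l hl
      obtain ⟨hl, hjl⟩ := mem_filter.1 hl
      obtain ⟨h1, h2⟩ := (mem_L lam m).1 hl
      refine (mem_L lam m).2 ⟨fun i hi => h1 i (Multiset.mem_of_mem_erase hi), ?_⟩
      rw [← h2]
      conv_rhs => rw [← Multiset.cons_erase hjl, Multiset.map_cons, Multiset.erase_cons_head]
    · intro l hl
      obtain ⟨h1, h2⟩ := (mem_L lam m).1 hl
      refine mem_filter.2 ⟨(mem_L lam m).2 ⟨fun i hi => ?_, ?_⟩, Multiset.mem_cons_self _ _⟩
      · rcases Multiset.mem_cons.1 hi with rfl | hi
        exacts [hj, h1 i hi]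
      · rw [Multiset.map_cons, h2, Multiset.cons_erase h]
    · intro l hl
      exact Multiset.cons_erase (mem_filter.1 hl).2
    · intro l _
      exact Multiset.erase_cons_head _ _
  · refine sum_eq_zero fun l hl => absurd ?_ h
    obtain ⟨hl, hjl⟩ := mem_filter.1 hl
    rw [← ((mem_L lam m).1 hl).2]
    exact Multiset.mem_map_of_mem _ hjl

lemma sum_count (e : ℕ) (l : Multiset ℕ) (hl : ∀ j ∈ l, j < m) :
    ∑ j ∈ range m with lam j = e, l.count j = (l.map lam).count e := by
  induction l using Multiset.induction_on with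
  | empty => simp
  | cons a l ih =>
    simp only [Multiset.count_cons, Multiset.map_cons, sum_add_distrib,
      ih fun j hj => hl j (Multiset.mem_cons_of_mem hj), sum_ite_eq', mem_filter, mem_range,
      hl a (Multiset.mem_cons_self _ _), true_and, @eq_comm _ e (lam a)]

lemma N_Q (e : ℕ) (k : Multiset ℕ) :
    ∑ j ∈ range m with lam j = e, N j (Q lam m k) = (k.count e : F) • Q lam m k := by
  simp only [Q, map_sum, N_e1, smul_sum]
  rw [sum_comm]
  refine sum_congr rfl fun l hl => ?_
  obtain ⟨h1, h2⟩ := (mem_L lam m).1 hl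
  rw [← sum_smul, ← Nat.cast_sum, sum_count lam m e l h1, h2]

def tau : En := lin fun c => P lam m c.1 (Q lam m c.2)

lemma tau_e1 (c : Cell) : tau lam m (e1 c) = P lam m c.1 (Q lam m c.2) := lin_e1 _ _

lemma bd_tau {r : ℕ} (hr : ∀ j < m, lam j < r) (x : Chain) :
    bd m (tau lam m x) = tau lam m (bd r x) := by
  suffices h : bd m * tau lam m = tau lam m * bd r from LinearMap.congr_fun h x
  refine ext_e1 fun c => ?_
  have hc : Commute (bd m) (P lam m c.1) :=
    comm_P lam m (fun v => (comm_M lam m (fun j => I_bd j m) v).symm) _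
  simp only [Module.End.mul_apply, tau_e1]
  rw [← Module.End.mul_apply, hc.eq, Module.End.mul_apply, bd_apply, bd_apply,
    ← sum_fiberwise_of_maps_to (t := range r) (g := lam)
      (fun j hj => mem_range.2 (hr j (mem_range.1 hj))), map_sum, map_sum]
  refine sum_congr rfl fun e _ => ?_
  rw [T_e1]
  split_ifs with he
  · have h1 : ∑ j ∈ range m with lam j = e, T j (Q lam m c.2) =
        (M lam m e + M lam m (e + 1)) (Q lam m (c.2.erase e)) +
          ((c.2.erase e).count e : F) • Q lam m (c.2.erase e) := by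
      rw [M_add, ← N_Q, LinearMap.sum_apply, ← sum_add_distrib]
      refine sum_congr rfl fun j hj => ?_
      obtain ⟨hj', rfl⟩ := mem_filter.1 hj
      rw [T, Module.End.mul_apply, D_Q lam m (mem_range.1 hj'), if_pos he]
      rfl
    have h2 : ∀ v y, P lam m c.1 (M lam m v y) = M lam m v (P lam m c.1 y) := fun v y =>
      LinearMap.congr_fun (comm_P lam m (fun w => M_M lam m v w) c.1).symm.eq y
    simp only [h1, map_add, map_smul, tau_e1, P_insert, Module.End.mul_apply,
      LinearMap.add_apply, h2]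
  · rw [sum_eq_zero, map_zero, map_zero]
    intro j hj
    obtain ⟨hj', rfl⟩ := mem_filter.1 hj
    rw [T, Module.End.mul_apply, D_Q lam m (mem_range.1 hj'), if_neg he, map_zero]

lemma eps_tau (x : Chain) : eps (tau lam m x) = eps x := by
  suffices h : eps ∘ₗ tau lam m = eps from LinearMap.congr_fun h x
  refine ext_e1 fun c => ?_
  simp only [LinearMap.comp_apply, tau_e1, eps_P, Q, map_sum, eps_e1]
  split_ifs with h
  · have : L lam m c.2 = {0} := by
      ext l
      simp only [mem_L, h, Multiset.map_eq_zero, mem_singleton]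
      exact ⟨fun h => h.2, fun h => by simp [h]⟩
    simp [this]
  · refine sum_eq_zero fun l hl => if_neg ?_
    rintro rfl
    exact h (by simpa using ((mem_L lam m).1 hl).2.symm)

/-- the cells that occur in the transfer of `(S, k)` -/
def Tr (S : Finset ℕ) (k : Multiset ℕ) : Set Cell :=
  {s | s.2.map lam = k ∧ (∀ j ∈ s.2, j < m) ∧ s.1.card ≤ S.card ∧
    (∀ j ∈ s.1, j ≤ m ∧ ∃ v ∈ S, mu lam m v j ≠ 0) ∧ ∀ v ∈ S, ∃ j ∈ s.1, mu lam m v j ≠ 0}

lemma tau_Tr (c : Cell) : tau lam m (e1 c) ∈ Sp (Tr lam m c.1 c.2) := by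
  obtain ⟨S, k⟩ := c
  rw [tau_e1]
  induction S using Finset.induction_on with
  | empty =>
    simp only [P, noncommProd_empty, Module.End.one_apply, Q]
    refine Submodule.sum_mem _ fun l hl => e1_mem ?_
    obtain ⟨h1, h2⟩ := (mem_L lam m).1 hl
    exact ⟨h2, h1, by simp, by simp, by simp⟩
  | insert v S hv ih =>
    rw [P_insert, Module.End.mul_apply]
    refine Sp_map (M lam m v) _ (fun s hs => ?_) ih
    obtain ⟨s1, s2, s3, s4, s5⟩ := hs
    simp only [M, LinearMap.sum_apply, LinearMap.smul_apply, I_e1]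
    refine Submodule.sum_mem _ fun j hj => ?_
    by_cases h0 : mu lam m v j = 0
    · rw [h0, zero_smul]; exact zero_mem _
    refine Submodule.smul_mem _ _ (e1_mem ⟨s1, s2, ?_, fun i hi => ?_, fun w hw => ?_⟩)
    · have := card_insert_le j s.1
      simp only [card_insert_of_notMem hv] at s3 ⊢
      omega
    · rcases mem_insert.1 hi with rfl | hi
      · exact ⟨by simpa [Nat.lt_succ_iff] using hj, v, mem_insert_self _ _, h0⟩
      · obtain ⟨h1, w, hw, h2⟩ := s4 i hi
        exact ⟨h1, w, mem_insert_of_mem hw, h2⟩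
    · rcases mem_insert.1 hw with rfl | hw
      · exact ⟨j, mem_insert_self _ _, h0⟩
      · obtain ⟨i, hi, h2⟩ := s5 w hw
        exact ⟨i, mem_insert_of_mem hi, h2⟩

lemma mu_near {r v j : ℕ} (h0 : lam 0 = 0) (hm : r ≤ lam m + 2)
    (hl : ∀ j < m, lam (j + 1) ≤ lam j + 1 ∧ lam j ≤ lam (j + 1) + 1) (hv : v ≤ r) (hj : j ≤ m)
    (h : mu lam m v j ≠ 0) : lam j ≤ v + 2 ∧ v ≤ lam j + 2 := by
  have h2 : (1 : F) + 1 = 0 := rfl
  have h3 : j = 0 ∨ ∃ i, j = i + 1 := by
    rcases j with _ | i
    exacts [Or.inl rfl, Or.inr ⟨i, rfl⟩]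
  unfold mu at h
  split_ifs at h with a b b
  · exact absurd h2 h
  · rcases h3 with rfl | ⟨i, rfl⟩
    · rcases Nat.eq_zero_or_pos m with rfl | hm0 <;> omega
    · have := hl i (by omega)
      simp only [Nat.add_sub_cancel] at a
      rcases eq_or_ne (i + 1) m with rfl | hne <;> omega
  · rcases h3 with rfl | ⟨i, rfl⟩
    · exact absurd (Or.inl rfl) a
    · have := hl i (by omega)
      simp only [Nat.add_sub_cancel] at a
      omega
  · simp at h

end Pool.Agent.Lib.MP_3eb21e_gt.Ch
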